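import Mathlib
import Pool.Agent.Lib.MP_6ac54e_lc.Core

open NumberField Polynomial Pointwise

namespace Pool.Agent.Results.MP_6ac54e_lc.CMWeilNumbers

/-- Complex conjugation of the CM field `L`, an element of its Galois group over the rationals. -/
noncomputable def conj (L : Type*) [Field L] [NumberField L] [IsCMField L] : Gal(L/ℚ) :=
  (IsCMField.complexConj L).restrictScalars ℚ

/-- The CM types of `L`: sets `Φ` of automorphisms containing exactly one of `σ` and `conj * σ`
for every `σ`. -/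
def CMType (L : Type*) [Field L] [NumberField L] [IsCMField L] : Type _ :=
  {Φ : Finset Gal(L/ℚ) // ∀ σ, σ ∈ Φ ↔ conj L * σ ∉ Φ}

/-- For every CM type `Φ`, the algebraic integer `π Φ` generates a power of the type norm
`∏ φ ∈ Φ, φ⁻¹ P` of `P`. -/
def GeneratesTypeNorms {L : Type*} [Field L] [NumberField L] [IsCMField L] (P : Ideal (𝓞 L))
    (π : CMType L → 𝓞 L) : Prop :=
  ∀ Φ : CMType L, ∃ m : ℕ, 1 ≤ m ∧ Ideal.span {π Φ} = ∏ φ ∈ Φ.1, (φ⁻¹ • P) ^ m

section

variable {L : Type*} [Field L] [NumberField L] [IsCMField L]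

theorem conj_mul_conj : conj L * conj L = 1 := by
  ext x
  simp [conj]

theorem conj_ne_one : conj L ≠ 1 := by
  intro h
  apply IsCMField.complexConj_ne_one L
  ext x
  have := congrArg (fun g : Gal(L/ℚ) => g x) h
  simpa [conj] using this

theorem conj_comm (σ : Gal(L/ℚ)) : conj L * σ = σ * conj L := by
  ext x
  have φ : L →+* ℂ := Classical.choice inferInstance
  apply φ.injective
  have h1 : φ (conj L (σ x)) = (starRingEnd ℂ) (φ (σ x)) :=
    IsCMField.complexEmbedding_complexConj L φ (σ x)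
  have h2 : (φ.comp (σ : L →+* L)) (conj L x) = (starRingEnd ℂ) ((φ.comp (σ : L →+* L)) x) :=
    IsCMField.complexEmbedding_complexConj L (φ.comp (σ : L →+* L)) x
  exact h1.trans h2.symm

theorem finite_cmType : Finite (CMType L) := by
  unfold CMType
  infer_instance

theorem exists_scaled (f : ℤ[X]) : ∃ α : L → 𝓞 L, ∀ θ : L, aeval θ f = 0 →
    algebraMap (𝓞 L) L (α θ) = (f.leadingCoeff : L) * θ := by
  have h : ∀ θ : L, ∃ x : 𝓞 L, aeval θ f = 0 → algebraMap (𝓞 L) L x = (f.leadingCoeff : L) * θ := by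
    intro θ
    by_cases hθ : aeval θ f = 0
    · have h1 : IsIntegral ℤ ((f.leadingCoeff : L) * θ) := by
        have := isIntegral_leadingCoeff_smul f θ hθ
        rwa [zsmul_eq_mul] at this
      exact ⟨⟨(f.leadingCoeff : L) * θ, h1⟩, fun _ => rfl⟩
    · exact ⟨0, fun h => absurd h hθ⟩
  choose α hα using h
  exact ⟨α, hα⟩

theorem mem_of_root {f : ℤ[X]} (hf : (f.map (algebraMap ℤ L)).Splits) {p : ℕ}
    (hp : p.Prime) (hpa : ¬ (p : ℤ) ∣ f.leadingCoeff) {P : Ideal (𝓞 L)} (hP : P.IsPrime)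
    (hpP : (p : 𝓞 L) ∈ P) {r : ℤ} (hr : (p : ℤ) ∣ f.eval r) (α : L → 𝓞 L)
    (hα : ∀ θ : L, aeval θ f = 0 → algebraMap (𝓞 L) L (α θ) = (f.leadingCoeff : L) * θ) :
    ∃ θ ∈ (f.map (algebraMap ℤ L)).roots, aeval θ f = 0 ∧
      α θ - ((f.leadingCoeff * r : ℤ) : 𝓞 L) ∈ P := by
  have hinj : Function.Injective (algebraMap ℤ L) := (algebraMap ℤ L).injective_int
  have hroots : ∀ θ ∈ (f.map (algebraMap ℤ L)).roots, aeval θ f = 0 := by
    intro θ hθ
    have h1 := Polynomial.isRoot_of_mem_roots hθ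
    rwa [Polynomial.IsRoot.def, Polynomial.eval_map_algebraMap] at h1
  have hev := hf.eval_eq_prod_roots (r : L)
  have hlc : (f.map (algebraMap ℤ L)).leadingCoeff = (f.leadingCoeff : L) := by
    rw [Polynomial.leadingCoeff_map_of_injective hinj]; simp
  have hev1 : (f.map (algebraMap ℤ L)).eval (r : L) = ((f.eval r : ℤ) : L) := by
    simp
  have hprod : (f.leadingCoeff : 𝓞 L) ^ Multiset.card (f.map (algebraMap ℤ L)).roots *
      ((f.eval r : ℤ) : 𝓞 L) = (f.leadingCoeff : 𝓞 L) *
        ((f.map (algebraMap ℤ L)).roots.map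
          fun θ => ((f.leadingCoeff * r : ℤ) : 𝓞 L) - α θ).prod := by
    apply FaithfulSMul.algebraMap_injective (𝓞 L) L
    rw [map_mul, map_mul, map_pow, map_intCast, map_intCast, ← hev1, hev, hlc, map_multiset_prod,
      Multiset.map_map]
    have h2 : ((f.map (algebraMap ℤ L)).roots.map ((algebraMap (𝓞 L) L) ∘
        fun θ => ((f.leadingCoeff * r : ℤ) : 𝓞 L) - α θ)) =
        ((f.map (algebraMap ℤ L)).roots.map fun θ => (f.leadingCoeff : L) * ((r : L) - θ)) := by
      apply Multiset.map_congr rfl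
      intro θ hθ
      simp only [Function.comp_apply, map_sub, map_intCast]
      rw [hα θ (hroots θ hθ)]
      push_cast
      ring
    rw [h2, Multiset.prod_map_mul, Multiset.map_const', Multiset.prod_replicate]
    ring
  have h3 : ((f.eval r : ℤ) : 𝓞 L) ∈ P := by
    obtain ⟨k, hk⟩ := hr
    rw [hk]
    push_cast
    exact P.mul_mem_right _ hpP
  have h4 := P.mul_mem_left ((f.leadingCoeff : 𝓞 L) ^
    Multiset.card (f.map (algebraMap ℤ L)).roots) h3
  rw [hprod] at h4
  rcases hP.mem_or_mem h4 with h5 | h5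
  · exact absurd (CMW.int_mem_prime hp hpP h5) hpa
  · obtain ⟨x, hx, h6⟩ := (hP.multiset_prod_mem_iff_exists_mem _).1 h5
    obtain ⟨θ, hθ, rfl⟩ := Multiset.mem_map.1 hx
    refine ⟨θ, hθ, hroots θ hθ, ?_⟩
    rw [← neg_mem_iff]
    simpa using h6

theorem exists_family [IsGalois ℚ L] {p : ℕ} (hp : p.Prime)
    (hur : ¬ (p : ℤ) ∣ NumberField.discr L) (P : Ideal (𝓞 L)) (hP : P.IsPrime)
    (hpP : (p : 𝓞 L) ∈ P) :
    ∃ π : CMType L → 𝓞 L, GeneratesTypeNorms P π ∧ ∀ Φ, π Φ * (conj L • π Φ) =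
      (p : 𝓞 L) ^ (2 * Nat.card (ClassGroup (𝓞 L)) * Nat.card Gal(L/ℚ)) := by
  have h : ∀ Φ : CMType L, ∃ z : 𝓞 L, (∃ m : ℕ, 1 ≤ m ∧
      Ideal.span {z} = ∏ φ ∈ Φ.1, (φ⁻¹ • P) ^ m) ∧ z * (conj L • z) =
      (p : 𝓞 L) ^ (2 * Nat.card (ClassGroup (𝓞 L)) * Nat.card Gal(L/ℚ)) := by
    intro Φ
    obtain ⟨z, m, h1, h2, h3⟩ := CMW.exists_norm_eq (conj L) conj_mul_conj conj_comm hp hur P hpP
      Φ.1 Φ.2
    exact ⟨z, ⟨m, h1, h2⟩, h3⟩
  choose π h1 h2 using h
  exact ⟨π, h1, h2⟩

open Classical in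
/-- Let `L` be a CM field, Galois over the rationals, and let `f` be a nonzero integer polynomial
which splits in `L`. There are `N`, `h` and a finite set `R` of pairs of integer polynomials such
that for every prime `p` not dividing `N` and every prime ideal `P` above `p`, if `f` has no real
root or `P` is not fixed by complex conjugation, then the type norms of `P` have generators `π Φ`
with `π Φ * conj (π Φ) = p ^ h`, and for ALL generators `π Φ` of powers of the type norms every
root `r` of `f` modulo `p` is `A x / B x` for some `(A, B)` in `R`, where `x` are the coordinates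
of the `π Φ`. -/
theorem result {L : Type*} [Field L] [NumberField L] [IsGalois ℚ L] [IsCMField L]
    {ι : Type*} [Fintype ι] (b : Module.Basis ι ℤ (𝓞 L)) (f : ℤ[X]) (hf0 : f ≠ 0)
    (hf : (f.map (algebraMap ℤ L)).Splits) :
    ∃ (N h : ℕ) (R : Finset (MvPolynomial (CMType L × ι) ℤ × MvPolynomial (CMType L × ι) ℤ)),
      0 < N ∧ ∀ p : ℕ, p.Prime → ¬ p ∣ N → ∀ P : Ideal (𝓞 L), P.IsPrime → (p : 𝓞 L) ∈ P →
        ((∀ θ : L, aeval θ f = 0 → conj L θ ≠ θ) ∨ conj L • P ≠ P) →
          (∃ π, GeneratesTypeNorms P π ∧ ∀ Φ, π Φ * (conj L • π Φ) = (p : 𝓞 L) ^ h) ∧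
          ∀ π, GeneratesTypeNorms P π → ∀ r : ℤ, (p : ℤ) ∣ f.eval r →
            ∃ AB ∈ R,
              ¬ (p : ℤ) ∣ MvPolynomial.eval (fun q => b.repr (π q.1) q.2) AB.2 ∧
              (p : ℤ) ∣ r * MvPolynomial.eval (fun q => b.repr (π q.1) q.2) AB.2 -
                MvPolynomial.eval (fun q => b.repr (π q.1) q.2) AB.1 := by
  obtain ⟨α, hα⟩ := exists_scaled (L := L) f
  have hfin : Finite (CMType L) := finite_cmType
  have hft : Fintype (CMType L) := Fintype.ofFinite _
  have hne : Nonempty ι := b.index_nonempty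
  obtain ⟨i0⟩ := hne
  let D : L → ℕ := fun θ => if α θ = conj L • α θ then 1 else
    Ideal.absNorm (Ideal.span {α θ - conj L • α θ})
  refine ⟨(NumberField.discr L).natAbs * f.leadingCoeff.natAbs *
    ∏ θ ∈ (f.map (algebraMap ℤ L)).roots.toFinset, D θ,
    2 * Nat.card (ClassGroup (𝓞 L)) * Nat.card Gal(L/ℚ),
    (f.map (algebraMap ℤ L)).roots.toFinset.biUnion fun θ =>
      Finset.univ.image fun s : ι → (CMType L × ι) ⊕ ι =>
        (CMW.upoly b i0 (α θ) s, MvPolynomial.C f.leadingCoeff * CMW.upoly b i0 1 s), ?_, ?_⟩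
  · apply Nat.pos_of_ne_zero
    apply mul_ne_zero (mul_ne_zero _ _) _
    · exact Int.natAbs_ne_zero.2 (NumberField.discr_ne_zero L)
    · exact Int.natAbs_ne_zero.2 (Polynomial.leadingCoeff_ne_zero.2 hf0)
    · rw [Finset.prod_ne_zero_iff]
      intro θ _
      simp only [D]
      split_ifs with h
      · exact one_ne_zero
      · rw [Ne, Ideal.absNorm_eq_zero_iff, Ideal.span_singleton_eq_bot, sub_eq_zero]
        exact h
  · intro p hp hpN P hP hpP hcond
    have hpd : ¬ (p : ℤ) ∣ NumberField.discr L := by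
      intro h
      apply hpN
      exact Dvd.dvd.mul_right (Dvd.dvd.mul_right (Int.natCast_dvd.1 h) _) _
    refine ⟨exists_family hp hpd P hP hpP, ?_⟩
    intro π hπ r hr
    have hpa : ¬ (p : ℤ) ∣ f.leadingCoeff := by
      intro h
      apply hpN
      exact Dvd.dvd.mul_right (Dvd.dvd.mul_left (Int.natCast_dvd.1 h) _) _
    obtain ⟨θ, hθS, hθ, hmem⟩ := mem_of_root hf hp hpa hP hpP hr α hα
    have hcP : conj L • P ≠ P := by
      rcases hcond with hreal | h
      · intro hc
        have h1 : conj L • (α θ - ((f.leadingCoeff * r : ℤ) : 𝓞 L)) ∈ conj L • P :=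
          Ideal.smul_mem_pointwise_smul _ _ _ hmem
        rw [hc] at h1
        have h2 : conj L • (α θ - ((f.leadingCoeff * r : ℤ) : 𝓞 L)) =
            conj L • α θ - ((f.leadingCoeff * r : ℤ) : 𝓞 L) := by
          rw [smul_sub]
          congr 1
          exact map_intCast (MulSemiringAction.toRingHom _ _ (conj L)) _
        rw [h2] at h1
        have h3 : α θ - conj L • α θ ∈ P := by
          have := P.sub_mem hmem h1
          convert this using 1
          ring
        have hne : α θ ≠ conj L • α θ := by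
          intro h
          apply hreal θ hθ
          have h4 := congrArg (algebraMap (𝓞 L) L) h
          have h5 : algebraMap (𝓞 L) L (conj L • α θ) = conj L (algebraMap (𝓞 L) L (α θ)) := rfl
          rw [h5, hα θ hθ, map_mul, map_intCast] at h4
          have ha : (f.leadingCoeff : L) ≠ 0 :=
            Int.cast_ne_zero.2 (Polynomial.leadingCoeff_ne_zero.2 hf0)
          exact (mul_left_cancel₀ ha h4).symm
        have h6 : ((Ideal.absNorm (Ideal.span {α θ - conj L • α θ}) : ℤ) : 𝓞 L) ∈ P := by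
          have h7 := Ideal.absNorm_mem (Ideal.span {α θ - conj L • α θ})
          have h8 : Ideal.span {α θ - conj L • α θ} ≤ P := by
            rw [Ideal.span_singleton_le_iff_mem]; exact h3
          simpa using h8 h7
        have h9 := CMW.int_mem_prime hp hpP h6
        apply hpN
        apply Dvd.dvd.mul_left
        refine (Int.natCast_dvd_natCast.1 h9).trans ?_
        have h10 : D θ = Ideal.absNorm (Ideal.span {α θ - conj L • α θ}) := if_neg hne
        rw [← h10]
        exact Finset.dvd_prod_of_mem D (Multiset.mem_toFinset.2 hθS)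
      · exact h
    have hspan := CMW.prime_eq_span (conj L) conj_mul_conj conj_ne_one hp hpd P hpP hcP
      (fun Φ : CMType L => Φ.1) (fun Φ hΦ => ⟨⟨Φ, hΦ⟩, rfl⟩) π hπ
    obtain ⟨s, hs1, hs2⟩ := CMW.coord_main b π p hp i0 P hP hpP hspan (α θ)
      (f.leadingCoeff * r) hmem
    refine ⟨(CMW.upoly b i0 (α θ) s, MvPolynomial.C f.leadingCoeff * CMW.upoly b i0 1 s), ?_, ?_, ?_⟩
    · rw [Finset.mem_biUnion]
      exact ⟨θ, Multiset.mem_toFinset.2 hθS, Finset.mem_image_of_mem _ (Finset.mem_univ s)⟩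
    · simp only [map_mul, MvPolynomial.eval_C]
      intro h
      rcases (Nat.prime_iff_prime_int.1 hp).dvd_or_dvd h with h | h
      · exact hpa h
      · exact hs1 h
    · simp only [map_mul, MvPolynomial.eval_C]
      have : r * (f.leadingCoeff * MvPolynomial.eval (fun q => b.repr (π q.1) q.2)
          (CMW.upoly b i0 1 s)) = f.leadingCoeff * r *
          MvPolynomial.eval (fun q => b.repr (π q.1) q.2) (CMW.upoly b i0 1 s) := by ring
      rw [this]
      exact hs2

end

end Pool.Agent.Results.MP_6ac54e_lc.CMWeilNumbers
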