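import Mathlib
import Pool.Agent.Lib.MP_6ac54e_lc.RootAnalysis
import Pool.Agent.Lib.MP_6ac54e_lc.NoDiverge

open NumberField Polynomial

namespace Pool.Agent.Results.MP_6ac54e_lc.FieldOperations

/-- A computation in the field `F` from the set `A` of inputs: a list each of whose members is
either the sum, difference, product or quotient of two elements which are inputs or stand to the
right of it in the list, or a root in `F` of a nonzero polynomial of degree at most `D` whose nonzero
coefficients are inputs or stand to the right of it in the list. The number of operations is the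
length of the list. -/
inductive Computation {F : Type*} [Field F] (D : ℕ) (A : Set F) : List F → Prop
  | nil : Computation D A []
  | arith {l : List F} {x y z : F} : Computation D A l → (x ∈ A ∨ x ∈ l) → (y ∈ A ∨ y ∈ l) →
      (z = x + y ∨ z = x - y ∨ z = x * y ∨ z = x / y) → Computation D A (z :: l)
  | root {l : List F} {z : F} {g : F[X]} : Computation D A l → g ≠ 0 → g.natDegree ≤ D →
      (∀ i, g.coeff i = 0 ∨ g.coeff i ∈ A ∨ g.coeff i ∈ l) → g.eval z = 0 →
      Computation D A (z :: l)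

/-- `z` is a hint for the ideal `P` of the number field `K`: an algebraic integer of the number field
`L` whose ideal is a product of conjugates `σ P`, `σ` an embedding of `K` into `L`, each with
multiplicity at most `M`, and all of whose absolute values are at most `C₀` times their geometric
mean. -/
def Hint (K : Type*) [Field K] [NumberField K] {L : Type*} [Field L] [NumberField L]
    (M : ℕ) (C₀ : ℝ) (P : Ideal (𝓞 K)) (z : 𝓞 L) : Prop :=
  ∃ m : (K →+* L) → ℕ, (∀ σ, m σ ≤ M) ∧
    Ideal.span {z} = ∏ σ, (P.map (RingOfIntegers.mapRingHom σ)) ^ m σ ∧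
    ∀ τ : L →+* ℂ, ‖τ (z : L)‖ ≤
      C₀ * (Ideal.absNorm P : ℝ) ^ (((∑ σ, m σ : ℕ) : ℝ) / (Module.finrank ℚ K : ℝ))

/-- The inputs: `1`, the integers `a j`, and the coordinates in the basis `b` of all hints for `P`. -/
def inputs (K : Type*) [Field K] [NumberField K] {L : Type*} [Field L] [NumberField L]
    {ι : Type*} (b : Module.Basis ι ℤ (𝓞 L)) (M : ℕ) (C₀ : ℝ) (P : Ideal (𝓞 K)) {k : ℕ}
    (a : Fin k → ℤ) (F : Type*) [Field F] : Set F :=
  {x | x = 1 ∨ (∃ j, x = ((a j : ℤ) : F)) ∨
    ∃ z : 𝓞 L, Hint K M C₀ P z ∧ ∃ i, x = ((b.repr z i : ℤ) : F)}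

/-- `p` is prime, and for some ideal `P` of norm `p` of `K` and some integers `a j`, `j < k`, of
absolute value at most `p ^ (1 / (2 n k))`, `n` the degree of `K`, a root of `f` in an algebraic
closure of the field with `p` elements can be computed by at most `t` operations from `1`, the
`a j` and the coordinates of all hints for `P`. -/
def RootFromHints (K : Type*) [Field K] [NumberField K] {L : Type*} [Field L] [NumberField L]
    {ι : Type*} (b : Module.Basis ι ℤ (𝓞 L)) (f : ℤ[X]) (D M k : ℕ) (C₀ : ℝ) (p t : ℕ) : Prop :=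
  ∃ _ : Fact p.Prime, ∃ (P : Ideal (𝓞 K)) (a : Fin k → ℤ), Ideal.absNorm P = p ∧
    (∀ j, (a j).natAbs ^ (2 * Module.finrank ℚ K * k) ≤ p) ∧
    ∃ (l : List (AlgebraicClosure (ZMod p))) (r : AlgebraicClosure (ZMod p)), l.length ≤ t ∧
      Computation D (inputs K b M C₀ P a (AlgebraicClosure (ZMod p))) l ∧
      (r ∈ inputs K b M C₀ P a (AlgebraicClosure (ZMod p)) ∨ r ∈ l) ∧ aeval r f = 0

/-- `t ≤ log p / (2 n (D + 4) log log p)` operations suffice, `n` the degree of `K`. -/
def Easy (K : Type*) [Field K] [NumberField K] {L : Type*} [Field L] [NumberField L]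
    {ι : Type*} (b : Module.Basis ι ℤ (𝓞 L)) (f : ℤ[X]) (D M k : ℕ) (C₀ : ℝ) (p : ℕ) : Prop :=
  ∃ t : ℕ, (t : ℝ) * Real.log (Real.log p) ≤
      1 / (2 * (Module.finrank ℚ K : ℝ) * (D + 4)) * Real.log p ∧
    RootFromHints K b f D M k C₀ p t

theorem Computation.run {F : Type*} [Field F] {D : ℕ} {A : Set F} {l : List F}
    (h : Computation D A l) : Pool.Agent.Lib.MP_6ac54e_lc.NoR.RunD D A l := by
  induction h with
  | nil => exact Pool.Agent.Lib.MP_6ac54e_lc.NoR.RunD.nil
  | arith _ hx hy hz ih => exact Pool.Agent.Lib.MP_6ac54e_lc.NoR.RunD.cons ih hx hy hz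
  | root _ h0 hd hc hz ih => exact Pool.Agent.Lib.MP_6ac54e_lc.NoR.RunD.root ih h0 hd hc hz

theorem Easy.easy {K : Type*} [Field K] [NumberField K] {L : Type*} [Field L] [NumberField L]
    {ι : Type*} {b : Module.Basis ι ℤ (𝓞 L)} {f : ℤ[X]} {D M k : ℕ} {C₀ : ℝ} {p : ℕ}
    (h : Easy K b f D M k C₀ p) :
    Pool.Agent.Lib.MP_6ac54e_lc.NoR.Easy K b f D M k C₀
      (1 / (2 * (Module.finrank ℚ K : ℝ) * (D + 4))) p := by
  obtain ⟨t, ht, hp, P, a, hP, ha, l, r, hlt, hl, hr, hf⟩ := h
  exact ⟨t, ht, hp, P, a, hP, ha, l, r, hlt, hl.run, hr, hf⟩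

/-- Let `K` be a number field of degree `n`, `D ≥ 1`, and `f` a nonconstant integer polynomial such
that the degree of every irreducible factor of `f` over `K` has a prime factor `> D`. Let `L` be a
number field with integral basis `b`, and let `M`, `k`, `C₀` be given. The number of primes `p ≤ X`
for which a root of `f` in an algebraic closure of the field with `p` elements can be computed by at
most `log p / (2 n (D + 4) log log p)` arithmetic operations and extractions of roots of
polynomials of degree at most `D`, starting from `1`, `k` integers of absolute value at most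
`p ^ (1 / (2 n k))` and the coordinates of all hints for an ideal of `K` of norm `p`, is at
most `C * X ^ (1 - 1 / (2 n (D + 4)))`; whereas the sum of `1 / p` over the other primes `p` which
are norms of ideals of `K` and modulo which `f` has a root diverges. -/
theorem result {K : Type*} [Field K] [NumberField K] {L : Type*} [Field L] [NumberField L]
    {ι : Type*} [Fintype ι] (b : Module.Basis ι ℤ (𝓞 L)) (f : ℤ[X]) (hdeg : 0 < f.natDegree)
    (D : ℕ) (hD : 1 ≤ D) (hf : ∀ g : K[X], Irreducible g → g ∣ f.map (algebraMap ℤ K) →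
      ∃ q : ℕ, q.Prime ∧ D < q ∧ q ∣ g.natDegree) (M k : ℕ) (C₀ : ℝ) :
    (∃ C : ℝ, ∀ X : ℝ, 2 ≤ X → (({p : ℕ | (p : ℝ) ≤ X ∧ Easy K b f D M k C₀ p}.ncard : ℕ) : ℝ) ≤
      C * X ^ (1 - 1 / (2 * (Module.finrank ℚ K : ℝ) * (D + 4)))) ∧
    ¬ Summable ({p : ℕ | p.Prime ∧ (∃ P : Ideal (𝓞 K), Ideal.absNorm P = p) ∧
      (∃ r : ℤ, (p : ℤ) ∣ f.eval r) ∧ ¬ Easy K b f D M k C₀ p}.indicator
        fun p : ℕ => (1 : ℝ) / p) := by
  classical
  obtain ⟨C, hC, hcount⟩ :=
    Pool.Agent.Lib.MP_6ac54e_lc.NoR.easy_countD b f D hD hf M k C₀ rfl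
  have hfin : ∀ X : ℝ, {p : ℕ | (p : ℝ) ≤ X ∧ Easy K b f D M k C₀ p}.Finite := by
    intro X
    refine (Set.finite_Iic ⌊X⌋₊).subset ?_
    intro p hp
    exact Nat.le_floor hp.1
  refine ⟨⟨C, fun X hX => ?_⟩, ?_⟩
  · rw [Set.ncard_eq_toFinset_card _ (hfin X)]
    refine hcount X hX _ fun p hp => ?_
    rw [Set.Finite.mem_toFinset] at hp
    exact ⟨hp.1, hp.2.easy⟩
  · intro hsum
    have hn : (1 : ℝ) ≤ (Module.finrank ℚ K : ℝ) := by
      exact_mod_cast (Module.finrank_pos : 0 < Module.finrank ℚ K)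
    have h1 := Pool.Agent.Lib.MP_6ac54e_lc.NoR.summable_of_count
      {p : ℕ | Easy K b f D M k C₀ p} (fun p hp => by
        obtain ⟨t, -, hp, -⟩ := hp
        exact hp.out.one_lt.le) C (1 / (2 * (Module.finrank ℚ K : ℝ) * (D + 4))) hC (by positivity)
      (fun X hX S hS => hcount X hX S fun p hp => ⟨(hS p hp).1, (hS p hp).2.easy⟩)
    apply Pool.Agent.Lib.MP_6ac54e_lc.NoF.not_summable_root (K := K) f hdeg
    refine Summable.of_nonneg_of_le (fun p => Set.indicator_nonneg (fun _ _ => by positivity) p)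
      (fun p => ?_) (hsum.add h1)
    by_cases hp : p.Prime ∧ (∃ P : Ideal (𝓞 K), Ideal.absNorm P = p) ∧ ∃ r : ZMod p, aeval r f = 0
    · have hp' : p ∈ {p : ℕ | p.Prime ∧ (∃ P : Ideal (𝓞 K), Ideal.absNorm P = p) ∧
        ∃ r : ZMod p, aeval r f = 0} := hp
      rw [Set.indicator_of_mem hp']
      by_cases he : Easy K b f D M k C₀ p
      · have he' : p ∈ {p : ℕ | Easy K b f D M k C₀ p} := he
        rw [Set.indicator_of_mem he']
        have : 0 ≤ ({p : ℕ | p.Prime ∧ (∃ P : Ideal (𝓞 K), Ideal.absNorm P = p) ∧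
          (∃ r : ℤ, (p : ℤ) ∣ f.eval r) ∧ ¬ Easy K b f D M k C₀ p}.indicator
            fun p : ℕ => (1 : ℝ) / p) p := Set.indicator_nonneg (fun _ _ => by positivity) p
        linarith
      · have hr : ∃ r : ℤ, (p : ℤ) ∣ f.eval r := by
          obtain ⟨r, hr⟩ := hp.2.2
          refine ⟨(r.cast : ℤ), ?_⟩
          rw [← ZMod.intCast_zmod_eq_zero_iff_dvd]
          have h2 : ((f.eval (r.cast : ℤ) : ℤ) : ZMod p) = aeval (((r.cast : ℤ)) : ZMod p) f := by
            have h3 := Polynomial.aeval_algebraMap_apply (ZMod p) (r.cast : ℤ) f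
            rw [coe_aeval_eq_eval] at h3
            simpa using h3.symm
          rw [h2, ZMod.intCast_cast, ZMod.cast_id]
          exact hr
        have he' : p ∈ {p : ℕ | p.Prime ∧ (∃ P : Ideal (𝓞 K), Ideal.absNorm P = p) ∧
          (∃ r : ℤ, (p : ℤ) ∣ f.eval r) ∧ ¬ Easy K b f D M k C₀ p} := ⟨hp.1, hp.2.1, hr, he⟩
        rw [Set.indicator_of_mem he']
        have : 0 ≤ ({p : ℕ | Easy K b f D M k C₀ p}.indicator fun p : ℕ => (1 : ℝ) / p) p :=
          Set.indicator_nonneg (fun _ _ => by positivity) p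
        linarith
    · have hp' : p ∉ {p : ℕ | p.Prime ∧ (∃ P : Ideal (𝓞 K), Ideal.absNorm P = p) ∧
        ∃ r : ZMod p, aeval r f = 0} := hp
      rw [Set.indicator_of_notMem hp']
      exact add_nonneg (Set.indicator_nonneg (fun _ _ => by positivity) p)
        (Set.indicator_nonneg (fun _ _ => by positivity) p)

end Pool.Agent.Results.MP_6ac54e_lc.FieldOperations
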